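import Pool.Agent.UL7.Stmts

/-!
# Squad UL7, row TOP: the theorem
-/

set_option autoImplicit false

namespace Pool.Agent.UL7.H19

open MeasureTheory Set Pool.Agent.UL3 Pool.Agent.UL4 Pool.Agent.UL5 Pool.Agent.UL7

theorem top (h1 : StpStmt) (h2 : GdsStmt) (h3 : IncStmt) (h4 : HlfStmt) : TopStmt := by
  intro D c n r hD hDc hDi hDs hDn hr hsec K hK hKi
  obtain ⟨T, hSB, hht, hPC, hdh⟩ := h1 D c n r hD hDc hDi hDs hDn hr hsec
  have hg : Good7 r D := h3 r D T c (h2 _ r hSB hht hPC hr hdh)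
  obtain ⟨hc1, hc2⟩ := h4 r D c hr hD hDc hDi hDs hg
  rcases hK with rfl | ⟨m, hm, rfl⟩
  · exact hc1
  · exact hc2 m hm hKi

end Pool.Agent.UL7.H19
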