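import Pool.Agent.UL7.Stmts

/-!
# Squad UL7, row ZLI: sums with zonotopes
-/

set_option autoImplicit false

namespace Pool.Agent.UL7.H19

open MeasureTheory Set Pool.Agent.UL3 Pool.Agent.UL4 Pool.Agent.UL5 Pool.Agent.UL7

theorem zon_sum : ∀ (l : List (ℝ × ℝ)) (X : Set (ℝ × ℝ)),
    zon X l = {p | ∃ x ∈ X, ∃ z ∈ zon {0} l, p = x + z} := by
  intro l
  induction l with
  | nil =>
    intro X
    ext p
    show p ∈ X ↔ ∃ x ∈ X, ∃ z ∈ ({0} : Set (ℝ × ℝ)), p = x + z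
    constructor
    · intro hp
      exact ⟨p, hp, 0, rfl, by rw [add_zero]⟩
    · rintro ⟨x, hx, z, hz, rfl⟩
      rw [mem_singleton_iff] at hz
      rw [hz, add_zero]
      exact hx
  | cons v l ih =>
    intro X
    ext p
    show p ∈ zon (sgm X v) l ↔ ∃ x ∈ X, ∃ z ∈ zon (sgm {0} v) l, p = x + z
    rw [ih (sgm X v), ih (sgm {0} v)]
    constructor
    · rintro ⟨y, ⟨x, hx, t, ht, rfl⟩, z, hz, rfl⟩
      refine ⟨x, hx, (0 + t • v) + z, ⟨0 + t • v, ⟨0, rfl, t, ht, rfl⟩, z, hz, rfl⟩, ?_⟩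
      rw [zero_add, add_assoc]
    · rintro ⟨x, hx, w, ⟨y, ⟨o, ho, t, ht, rfl⟩, z, hz, rfl⟩, rfl⟩
      rw [mem_singleton_iff] at ho
      refine ⟨x + t • v, ⟨x, hx, t, ht, rfl⟩, z, hz, ?_⟩
      rw [ho, zero_add, add_assoc]

theorem zon_compact (h1 : SgcStmt) : ∀ (l : List (ℝ × ℝ)) (X : Set (ℝ × ℝ)), IsCompact X →
    IsCompact (zon X l) := by
  intro l
  induction l with
  | nil => exact fun X hX => hX
  | cons v l ih => exact fun X hX => ih (sgm X v) ((h1 X v).1 hX)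

theorem zon_convex (h1 : SgcStmt) : ∀ (l : List (ℝ × ℝ)) (X : Set (ℝ × ℝ)), Convex ℝ X →
    Convex ℝ (zon X l) := by
  intro l
  induction l with
  | nil => exact fun X hX => hX
  | cons v l ih => exact fun X hX => ih (sgm X v) ((h1 X v).2.1 hX)

theorem zon_sub (h1 : SgcStmt) : ∀ (l : List (ℝ × ℝ)) (X : Set (ℝ × ℝ)), X ⊆ zon X l := by
  intro l
  induction l with
  | nil => exact fun X => Subset.rfl
  | cons v l ih => exact fun X => ((h1 X v).2.2.1).trans (ih (sgm X v))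

theorem zon_PC (h1 : SgcStmt) : ∀ (l : List (ℝ × ℝ)) (X : Set (ℝ × ℝ)), PC X →
    PC (zon X l) := by
  intro l
  induction l with
  | nil => exact fun X hX => hX
  | cons v l ih => exact fun X hX => ih (sgm X v) ((h1 X v).2.2.2 hX)

theorem zon_symm : ∀ (l : List (ℝ × ℝ)) (X : Set (ℝ × ℝ)), (∀ z ∈ X, -z ∈ X) →
    ∀ z ∈ zon X l, -z ∈ zon X l := by
  intro l
  induction l with
  | nil => exact fun X hX => hX
  | cons v l ih =>
    intro X hX
    apply ih (sgm X v)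
    rintro z ⟨x, hx, t, ht, rfl⟩
    refine ⟨-x, hX x hx, -t, by rwa [abs_neg], ?_⟩
    rw [neg_add, neg_smul]

theorem sgm_smul (c : ℝ) (X : Set (ℝ × ℝ)) (v : ℝ × ℝ) :
    sgm ((fun x => c • x) '' X) (c • v) = (fun x => c • x) '' sgm X v := by
  ext p
  constructor
  · rintro ⟨y, ⟨x, hx, rfl⟩, t, ht, rfl⟩
    refine ⟨x + t • v, ⟨x, hx, t, ht, rfl⟩, ?_⟩
    show c • (x + t • v) = c • x + t • c • v
    rw [smul_add, smul_comm c t v]
  · rintro ⟨y, ⟨x, hx, t, ht, rfl⟩, rfl⟩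
    refine ⟨c • x, ⟨x, hx, rfl⟩, t, ht, ?_⟩
    show c • (x + t • v) = c • x + t • c • v
    rw [smul_add, smul_comm c t v]

theorem zon_smul (c : ℝ) : ∀ (l : List (ℝ × ℝ)) (X : Set (ℝ × ℝ)),
    zon ((fun x => c • x) '' X) (l.map fun v => c • v) = (fun x => c • x) '' zon X l := by
  intro l
  induction l with
  | nil => exact fun X => rfl
  | cons v l ih =>
    intro X
    show zon (sgm ((fun x => c • x) '' X) (c • v)) (l.map fun v => c • v) =
      (fun x => c • x) '' zon (sgm X v) l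
    rw [sgm_smul, ih]

theorem zli (h1 : SgcStmt) : ZliStmt := by
  refine ⟨fun X l => zon_sum l X, fun l => ⟨zon_compact h1 l _ isCompact_singleton,
    zon_convex h1 l _ (convex_singleton 0), zon_sub h1 l _ rfl, zon_symm l _ ?_, fun c => ?_⟩,
    fun X l hX => zon_PC h1 l X hX⟩
  · intro z hz
    rw [mem_singleton_iff] at hz
    rw [hz, neg_zero]
    rfl
  · have h := zon_smul c l {0}
    have e : (fun x : ℝ × ℝ => c • x) '' {0} = {0} := by
      rw [image_singleton, smul_zero]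
    rw [e] at h
    exact h

end Pool.Agent.UL7.H19
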